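import Mathlib

open MeasureTheory ProbabilityTheory Set Filter Topology

namespace Pool.Agent.Results.MP_ed16aa_pr.Unique

/-- μ is a probability distribution on [0, ∞) with mean exactly y. -/
def IsStrat (y : ℝ) (μ : Measure ℝ) : Prop :=
  IsProbabilityMeasure μ ∧ μ (Iio 0) = 0 ∧ Integrable (fun x : ℝ => x) μ ∧ ∫ x, x ∂μ = y

/-- Pr(X > Y) + Pr(X = Y) / 2 for independent X with law μ and Y with law g. -/
noncomputable def payoff (g μ : Measure ℝ) : ℝ :=
  (μ.prod g).real {p | p.2 < p.1} + (μ.prod g).real {p | p.1 = p.2} / 2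

/-- Players form the probability space (Ω, P), player ω has budget b ω and plays f ω; the
aggregate strategy is the mixture P.bind f, and almost every player best-responds to it. -/
def IsNE {Ω : Type*} [MeasurableSpace Ω] (P : Measure Ω) (b : Ω → ℝ) (f : Kernel Ω ℝ) : Prop :=
  (∀ ω, IsStrat (b ω) (f ω)) ∧
    ∀ᵐ ω ∂P, ∀ μ, IsStrat (b ω) μ → payoff (P.bind f) μ ≤ payoff (P.bind f) (f ω)

noncomputable def phi (g : Measure ℝ) (x : ℝ) : ℝ := g.real (Iio x) + g.real {x} / 2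

lemma m1 : MeasurableSet {p : ℝ × ℝ | p.2 < p.1} := measurableSet_lt measurable_snd measurable_fst

lemma m2 : MeasurableSet {p : ℝ × ℝ | p.1 = p.2} := measurableSet_eq_fun measurable_fst measurable_snd

lemma e1 (x : ℝ) : Prod.mk x ⁻¹' {p : ℝ × ℝ | p.2 < p.1} = Iio x := rfl

lemma e2 (x : ℝ) : Prod.mk x ⁻¹' {p : ℝ × ℝ | p.1 = p.2} = {x} := by ext; simp [eq_comm]

variable {g μ : Measure ℝ}

lemma real_prod [IsProbabilityMeasure g] {s : Set (ℝ × ℝ)} (hs : MeasurableSet s) :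
    (μ.prod g).real s = ∫ x, g.real (Prod.mk x ⁻¹' s) ∂μ := by
  rw [measureReal_def, Measure.prod_apply hs, ← integral_toReal
    (measurable_measure_prodMk_left hs).aemeasurable (ae_of_all _ fun _ => measure_lt_top _ _)]
  rfl

lemma meas [IsProbabilityMeasure g] {s : Set (ℝ × ℝ)} (hs : MeasurableSet s) :
    Measurable fun x => g.real (Prod.mk x ⁻¹' s) :=
  (measurable_measure_prodMk_left hs).ennreal_toReal

lemma integ [IsProbabilityMeasure μ] {φ : ℝ → ℝ} (h : Measurable φ) {C : ℝ} (hb : ∀ x, |φ x| ≤ C) :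
    Integrable φ μ := Integrable.of_bound h.aestronglyMeasurable C (ae_of_all _ hb)

lemma phi_meas [IsProbabilityMeasure g] : Measurable (phi g) := by
  have h1 := meas (g := g) m1
  have h2 := meas (g := g) m2
  simp only [e1, e2] at h1 h2
  exact h1.add (h2.div_const 2)

lemma phi_abs [IsProbabilityMeasure g] (x : ℝ) : |phi g x| ≤ 2 := by
  have h1 : g.real (Iio x) ≤ 1 := measureReal_le_one
  have h2 : g.real {x} ≤ 1 := measureReal_le_one
  rw [abs_of_nonneg (by unfold phi; positivity), phi]; linarith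

lemma payoff_eq [IsProbabilityMeasure g] [IsProbabilityMeasure μ] :
    payoff g μ = ∫ x, phi g x ∂μ := by
  have h : ∀ s, MeasurableSet s → Integrable (fun x => g.real (Prod.mk x ⁻¹' s)) μ := fun s hs =>
    integ (meas hs) (C := 1) fun x => by rw [abs_of_nonneg measureReal_nonneg]; exact measureReal_le_one
  rw [payoff, real_prod m1, real_prod m2, ← integral_div, ← integral_add (h _ m1) ((h _ m2).div_const 2)]
  simp only [e1, e2, phi]

lemma payoff_anti [IsProbabilityMeasure g] [IsProbabilityMeasure μ] :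
    payoff g μ + payoff μ g = 1 := by
  have h1 : ∀ s, MeasurableSet s → (g.prod μ).real s = (μ.prod g).real (Prod.swap ⁻¹' s) :=
    fun s hs => by rw [← Measure.prod_swap, map_measureReal_apply measurable_swap hs]
  have m3 : MeasurableSet {p : ℝ × ℝ | p.1 < p.2} := measurableSet_lt measurable_fst measurable_snd
  have h2 : Prod.swap ⁻¹' {p : ℝ × ℝ | p.1 = p.2} = {p | p.1 = p.2} := by ext; simp [eq_comm]
  have h3 : {p : ℝ × ℝ | p.2 < p.1}ᶜ = {p | p.1 = p.2} ∪ {p | p.1 < p.2} := by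
    ext; simp [le_iff_eq_or_lt]
  have h4 := probReal_add_probReal_compl (μ := μ.prod g) m1
  rw [h3, measureReal_union (by
    rw [Set.disjoint_left]; exact fun p h h' => ne_of_lt h' h) m3] at h4
  rw [payoff, payoff, h1 _ m1, h1 _ m2, h2]
  change _ + ((μ.prod g).real {p | p.1 < p.2} + _) = _
  linarith

lemma two {φ : ℝ → ℝ} {y V : ℝ} (hV : ∀ μ, IsStrat y μ → ∫ x, φ x ∂μ ≤ V) {z w l : ℝ}
    (hz : 0 ≤ z) (hw : 0 ≤ w) (l0 : 0 ≤ l) (l1 : l ≤ 1) (e : l * z + (1 - l) * w = y) :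
    l * φ z + (1 - l) * φ w ≤ V := by
  have hi : ∀ (ψ : ℝ → ℝ) (c a : ℝ), Integrable ψ (ENNReal.ofReal c • Measure.dirac a) :=
    fun ψ c a => (integrable_dirac (by simp)).smul_measure (by simp)
  have he : ∀ ψ : ℝ → ℝ, ∫ x, ψ x ∂(ENNReal.ofReal l • Measure.dirac z +
      ENNReal.ofReal (1 - l) • Measure.dirac w) = l * ψ z + (1 - l) * ψ w := fun ψ => by
    rw [integral_add_measure (hi _ _ _) (hi _ _ _)]
    simp [ENNReal.toReal_ofReal l0, ENNReal.toReal_ofReal (sub_nonneg.2 l1)]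
  rw [← he]
  refine hV _ ⟨⟨?_⟩, ?_, (hi _ _ _).add_measure (hi _ _ _), by rw [he, e]⟩
  · simp [← ENNReal.ofReal_add l0 (sub_nonneg.2 l1)]
  · simp [hz, hw]

lemma line {φ : ℝ → ℝ} (hφ : Measurable φ) (hb : ∀ x, |φ x| ≤ 2) {y V : ℝ} (hy : 0 < y)
    (hV : ∀ μ, IsStrat y μ → ∫ x, φ x ∂μ ≤ V) : ∃ c s : ℝ, (∀ z, 0 ≤ z → φ z ≤ c + s * z) ∧
      ∀ μ, IsStrat y μ → V ≤ ∫ x, φ x ∂μ → ∀ᵐ x ∂μ, 0 ≤ x ∧ φ x = c + s * x := by
  have h1 : ∀ z, 0 ≤ z → z < y → ∀ w, y < w → (φ w - V) / (w - y) ≤ (V - φ z) / (y - z) :=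
    fun z hz zy w yw => by
    have d : 0 < w - z := by linarith
    have := two hV hz (w := w) (by linarith) (l := (w - y) / (w - z)) (by
      apply div_nonneg <;> linarith) (by rw [div_le_one d]; linarith) (by field_simp; ring)
    rw [div_le_div_iff₀ (by linarith) (by linarith)]
    have h2 : (w - y) / (w - z) * φ z + (1 - (w - y) / (w - z)) * φ w =
      ((w - y) * φ z + (y - z) * φ w) / (w - z) := by field_simp; ring
    rw [h2, div_le_iff₀ d] at this
    linarith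
  have : Nonempty (Ioi y) := ⟨⟨y + 1, by simp⟩⟩
  have bd : BddAbove (range fun w : Ioi y => (φ w - V) / (w - y)) :=
    ⟨_, forall_mem_range.2 fun w => h1 0 le_rfl hy w w.2⟩
  set s := ⨆ w : Ioi y, (φ w - V) / (w - y)
  have h2 : ∀ z, 0 ≤ z → φ z ≤ V - s * y + s * z := fun z hz => by
    rcases lt_trichotomy z y with h | rfl | h
    · have : s ≤ _ := ciSup_le fun w : Ioi y => h1 z hz h w w.2
      rw [le_div_iff₀ (by linarith)] at this
      linarith
    · have := two hV hz hz (l := 1) zero_le_one le_rfl (by ring)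
      linarith
    · have : (φ z - V) / (z - y) ≤ s := le_ciSup bd ⟨z, h⟩
      rw [div_le_iff₀ (by linarith)] at this
      linarith
  refine ⟨_, s, h2, fun μ ⟨p, h0, hi, e⟩ hμ => ?_⟩
  have h3 : ∀ᵐ x ∂μ, 0 ≤ x := by simpa [ae_iff, Iio] using h0
  have h4 : Integrable (fun x => V - s * y + s * x) μ := (integrable_const _).add (hi.const_mul s)
  have h5 : ∀ᵐ x ∂μ, φ x ≤ V - s * y + s * x := h3.mono h2
  refine h3.and ((integral_eq_iff_of_ae_le (integ hφ hb) h4 h5).1
    (le_antisymm (integral_mono_ae (integ hφ hb) h4 h5) ?_))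
  rw [integral_add (integrable_const _) (hi.const_mul s), integral_const_mul, e]
  simpa using hμ

def Good (g : Measure ℝ) : Prop := ∀ S, MeasurableSet S → (∀ x ∈ S, 0 ≤ x → ∀ c s : ℝ,
  (∀ z, 0 ≤ z → phi g z ≤ c + s * z) → phi g x ≠ c + s * x) → g S = 0

lemma Good.atom [IsProbabilityMeasure g] (h : Good g) : NullSingletonClass g := ⟨fun x => by
  by_contra hx
  refine hx (h _ (measurableSet_singleton x) ?_)
  rintro y hy x0 c s hl e
  obtain rfl : x = y := hy.symm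
  have a0 : 0 < g.real {x} := ENNReal.toReal_pos hx (measure_ne_top _ _)
  have d0 : 0 < g.real {x} / (4 * (|s| + 1)) := by positivity
  have h1 := hl (x + g.real {x} / (4 * (|s| + 1))) (by linarith)
  have h2 : g.real (Iio x ∪ {x}) ≤ g.real (Iio (x + g.real {x} / (4 * (|s| + 1)))) :=
    measureReal_mono (by rw [Iio_union_right]; exact Iic_subset_Iio.2 (by linarith))
  rw [measureReal_union (by simp) (measurableSet_singleton x)] at h2
  have h3 : g.real {x} / (4 * (|s| + 1)) * (4 * (|s| + 1)) = g.real {x} := by field_simp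
  have h4 : 0 ≤ g.real {x + g.real {x} / (4 * (|s| + 1))} := measureReal_nonneg
  unfold phi at h1 e
  nlinarith [mul_le_mul_of_nonneg_right (le_abs_self s) d0.le]⟩

lemma phi_eq [IsProbabilityMeasure g] [NullSingletonClass g] (x : ℝ) : phi g x = cdf g x := by
  rw [cdf_eq_real, phi, measureReal_congr Iio_ae_eq_Iic]
  simp [measureReal_def]

lemma cont [IsProbabilityMeasure g] [NullSingletonClass g] : Continuous (cdf g) :=
  continuous_iff_continuousAt.2 fun x => by
    have h := (cdf g).measure_singleton x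
    rw [measure_cdf, measure_singleton, eq_comm, ENNReal.ofReal_eq_zero] at h
    rw [(monotone_cdf g).continuousAt_iff_leftLim_eq_rightLim, (cdf g).rightLim_eq]
    exact le_antisymm ((monotone_cdf g).leftLim_le le_rfl) (by linarith)

lemma Good.affine [IsProbabilityMeasure g] (h : Good g) {c s u v x : ℝ}
    (hl : ∀ z, 0 ≤ z → phi g z ≤ c + s * z) (u0 : 0 ≤ u) (ux : u < x) (xv : x < v)
    (hu : phi g u = c + s * u) (hv : phi g v = c + s * v) : phi g x = c + s * x := by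
  have := h.atom
  obtain ⟨b, ⟨hb, e⟩, hm⟩ := (isCompact_Icc.inter_right (s := Icc x v)
    (isClosed_eq (cont (g := g)) (g := fun z => c + s * z) (by fun_prop))).exists_isLeast
    ⟨v, ⟨xv.le, le_rfl⟩, by simpa [phi_eq] using hv⟩
  have h1 : g (Ioo x b) = 0 := h _ measurableSet_Ioo fun w hw w0 c' s' hl' e' => by
    refine (hm ⟨⟨hw.1.le, hw.2.le.trans hb.2⟩, ?_⟩).not_gt hw.2
    have h2 := hl' u u0
    have h3 := hl' v (by linarith)
    have h4 := hl w w0
    change cdf g w = c + s * w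
    rw [← phi_eq]
    by_contra hc
    have h5 := lt_of_le_of_ne h4 hc
    nlinarith [hw.1, hw.2, hb.2]
  rw [measure_congr Ioo_ae_eq_Ioc, ← measure_cdf g, StieltjesFunction.measure_Ioc,
    ENNReal.ofReal_eq_zero] at h1
  have h2 := monotone_cdf g (ux.trans xv).le
  have e : cdf g b = c + s * b := e
  have h3 := hl x (by linarith)
  rw [phi_eq] at hu hv h3 ⊢
  have s0 : 0 ≤ s := by nlinarith
  nlinarith [hb.1]

lemma maxp {D : ℝ → ℝ} (hc : Continuous D) (hT : Tendsto D atTop (𝓝 0))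
    (H : ∀ x, 0 < D x → ∃ u v c s, 0 ≤ u ∧ u < x ∧ x < v ∧ D u = c + s * u ∧ D x = c + s * x ∧
      D v = c + s * v) (x : ℝ) : D x ≤ 0 := by
  by_contra hx
  push Not at hx
  obtain ⟨R, hR⟩ := eventually_atTop.1 (hT.eventually (gt_mem_nhds hx))
  have x0 : 0 ≤ x := by
    obtain ⟨u, -, -, -, h1, h2, -⟩ := H x hx
    linarith
  have xR : x ≤ R := by
    by_contra h
    exact lt_irrefl _ (hR x (not_le.1 h).le)
  obtain ⟨m, hm, hM⟩ := isCompact_Icc.exists_isMaxOn ⟨x, x0, xR⟩ (hc.continuousOn (s := Icc 0 R))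
  obtain ⟨a, ⟨ha, e⟩, hl⟩ := (isCompact_Icc.inter_right (s := Icc 0 R)
    (isClosed_eq hc (continuous_const (y := D m)))).exists_isLeast ⟨m, hm, rfl⟩
  have e : D a = D m := e
  have h1 : D x ≤ D m := hM ⟨x0, xR⟩
  obtain ⟨u, v, c, s, u0, ua, av, e1, e2, e3⟩ := H a (by linarith)
  have h2 : D u < D m := lt_of_le_of_ne (hM ⟨u0, by linarith [ha.2]⟩) fun h =>
    (hl ⟨⟨u0, by linarith [ha.2]⟩, h⟩).not_gt ua
  have h3 : D v ≤ D m := by
    rcases le_total v R with h | h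
    exacts [hM ⟨by linarith, h⟩, by linarith [hR v h]]
  nlinarith

variable {Ω : Type*} [MeasurableSpace Ω] {P : Measure Ω} [IsProbabilityMeasure P] {b : Ω → ℝ}
  {f f' : Kernel Ω ℝ}

omit [IsProbabilityMeasure P] in
lemma IsNE.markov (h : IsNE P b f) : IsMarkovKernel f := ⟨fun ω => (h.1 ω).1⟩

lemma IsNE.line (h : IsNE P b f) (hb : ∀ ω, 0 < b ω) : ∀ᵐ ω ∂P, ∃ c s : ℝ,
    (∀ z, 0 ≤ z → phi (P.bind f) z ≤ c + s * z) ∧ ∀ μ, IsStrat (b ω) μ →
    payoff (P.bind f) (f ω) ≤ payoff (P.bind f) μ → ∀ᵐ x ∂μ, 0 ≤ x ∧ phi (P.bind f) x = c + s * x := by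
  have := h.markov
  filter_upwards [h.2] with ω hω
  obtain ⟨c, s, h1, h2⟩ := Unique.line (phi_meas (g := P.bind f)) phi_abs (hb ω)
    (V := payoff (P.bind f) (f ω)) fun μ hμ => by have := hμ.1; rw [← payoff_eq]; exact hω μ hμ
  exact ⟨c, s, h1, fun μ hμ e => h2 μ hμ (by have := hμ.1; rwa [← payoff_eq])⟩

lemma IsNE.good (h : IsNE P b f) (hb : ∀ ω, 0 < b ω) : Good (P.bind f) := fun S hS H => by
  rw [Measure.bind_apply hS f.aemeasurable]
  refine (lintegral_congr_ae ?_).trans lintegral_zero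
  filter_upwards [h.line hb] with ω ⟨c, s, h1, h2⟩
  refine measure_mono_null ?_ (ae_iff.1 (h2 _ (h.1 ω) le_rfl))
  exact fun x hx e => H x hx e.1 c s h1 e.2

lemma avg [IsMarkovKernel f] {φ : ℝ → ℝ} (h : Measurable φ) {C : ℝ} (hb : ∀ x, |φ x| ≤ C) :
    Integrable (fun ω => ∫ x, φ x ∂f ω) P ∧ ∫ ω, ∫ x, φ x ∂f ω ∂P = ∫ x, φ x ∂P.bind f := by
  have h1 : Integrable φ (P.bind f) := integ h hb
  rw [Measure.comp_eq_comp_const_apply] at h1 ⊢
  exact ⟨h1.integral_comp, (Kernel.integral_comp h1).symm⟩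

lemma avgp [IsProbabilityMeasure g] [IsMarkovKernel f] :
    Integrable (fun ω => payoff g (f ω)) P ∧ ∫ ω, payoff g (f ω) ∂P = payoff g (P.bind f) := by
  simp only [payoff_eq]
  exact avg phi_meas phi_abs

lemma half (h : IsNE P b f) (h' : IsNE P b f') : payoff (P.bind f) (P.bind f') ≤ 1 / 2 := by
  have := h.markov
  have := h'.markov
  have h1 := integral_mono_ae avgp.1 avgp.1 (h.2.mono fun ω hω => hω _ (h'.1 ω))
  rw [avgp.2, avgp.2] at h1
  linarith [payoff_anti (g := P.bind f) (μ := P.bind f)]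

lemma cross (h : IsNE P b f) (h' : IsNE P b f') (hb : ∀ ω, 0 < b ω) : ∀ᵐ ω ∂P, ∃ c s : ℝ,
    (∀ z, 0 ≤ z → phi (P.bind f) z ≤ c + s * z) ∧
    (∀ᵐ x ∂f ω, 0 ≤ x ∧ phi (P.bind f) x = c + s * x) ∧
    (∀ᵐ x ∂f' ω, 0 ≤ x ∧ phi (P.bind f) x = c + s * x) := by
  have := h.markov
  have := h'.markov
  have h1 := h.2.mono fun ω hω => hω _ (h'.1 ω)
  have h2 := (integral_eq_iff_of_ae_le avgp.1 avgp.1 h1).1 (by
    rw [avgp.2, avgp.2]
    linarith [payoff_anti (g := P.bind f) (μ := P.bind f), half h h', half h' h,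
      payoff_anti (g := P.bind f) (μ := P.bind f')])
  filter_upwards [h.line hb, h2] with ω ⟨c, s, h3, h4⟩ e
  exact ⟨c, s, h3, h4 _ (h.1 ω) le_rfl, h4 _ (h'.1 ω) e.ge⟩

lemma cdf_le (h : IsNE P b f) (h' : IsNE P b f') (hb : ∀ ω, 0 < b ω) (x : ℝ) :
    cdf (P.bind f) x ≤ cdf (P.bind f') x := by
  have := h.markov
  have := h'.markov
  have := (h.good hb).atom
  have := (h'.good hb).atom
  rw [← sub_nonpos]
  refine maxp (D := fun x => cdf (P.bind f) x - cdf (P.bind f') x) (cont.sub cont)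
    (by simpa using (tendsto_cdf_atTop (P.bind f)).sub (tendsto_cdf_atTop (P.bind f')))
    (fun x hx => ?_) x
  have h1 : ∃ᵐ ω ∂P, f' ω (Iic x) < f ω (Iio x) := by
    by_contra hc
    have := lintegral_mono_ae (not_frequently.1 hc |>.mono fun ω hω => not_lt.1 hω)
    rw [← Measure.bind_apply measurableSet_Iio f.aemeasurable,
      ← Measure.bind_apply measurableSet_Iic f'.aemeasurable, measure_congr Iio_ae_eq_Iic,
      ← ofReal_cdf, ← ofReal_cdf, ENNReal.ofReal_le_ofReal_iff (cdf_nonneg _ _)] at this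
    linarith
  obtain ⟨ω, h2, ⟨c, s, l1, a1, a2⟩, c', s', l2, a3, a4⟩ :=
    (h1.and_eventually ((cross h h' hb).and (cross h' h hb))).exists
  obtain ⟨u, ux, ⟨u0, e1⟩, -, e2⟩ := Measure.exists_mem_of_measure_ne_zero_of_ae
    (ne_bot_of_gt h2) (ae_restrict_of_ae (a1.and a4))
  obtain ⟨v, xv, ⟨-, e3⟩, -, e4⟩ := Measure.exists_mem_of_measure_ne_zero_of_ae (s := Ioi x)
    (μ := f' ω) (fun e => by
      rw [← compl_Iic, prob_compl_eq_zero_iff measurableSet_Iic] at e
      exact (e ▸ h2).not_ge prob_le_one) (ae_restrict_of_ae (a2.and a3))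
  have e5 := (h.good hb).affine l1 u0 ux xv e1 e3
  have e6 := (h'.good hb).affine l2 u0 ux xv e2 e4
  simp only [phi_eq] at e1 e2 e3 e4 e5 e6
  exact ⟨u, v, c - c', s - s', u0, ux, xv, by linarith, by linarith, by linarith⟩

theorem result {Ω : Type*} [MeasurableSpace Ω] (P : Measure Ω) [IsProbabilityMeasure P]
    (b : Ω → ℝ) (hb : ∀ ω, 0 < b ω) (f f' : Kernel Ω ℝ) (h : IsNE P b f) (h' : IsNE P b f') :
    P.bind f = P.bind f' := by
  have := h.markov
  have := h'.markov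
  exact Measure.eq_of_cdf _ _ (StieltjesFunction.ext fun x =>
    le_antisymm (cdf_le h h' hb x) (cdf_le h' h hb x))

end Pool.Agent.Results.MP_ed16aa_pr.Unique
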